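import Pool.Agent.V5helper27.WM.Dual

open MeasureTheory Filter Topology
open scoped ENNReal InnerProductSpace

namespace Pool.Agent.Results.MP_30e1ee_an.WeakMaximizingFails

section definitions

variable {𝕜 E F : Type*} [RCLike 𝕜] [NormedAddCommGroup E] [NormedSpace 𝕜 E]
  [NormedAddCommGroup F] [NormedSpace 𝕜 F]

/-- `T` attains its norm at a unit vector. -/
def NormAttaining (T : E →L[𝕜] F) : Prop := ∃ x : E, ‖x‖ = 1 ∧ ‖T x‖ = ‖T‖

/-- `x` is a maximizing sequence for `T`: unit vectors with `‖T x_n‖ → ‖T‖`. -/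
def Maximizing (T : E →L[𝕜] F) (x : ℕ → E) : Prop :=
  (∀ n, ‖x n‖ = 1) ∧ Tendsto (fun n => ‖T (x n)‖) atTop (𝓝 ‖T‖)

variable (𝕜) in
/-- `x` converges weakly to zero. -/
def WeaklyNull (x : ℕ → E) : Prop :=
  ∀ φ : E →L[𝕜] 𝕜, Tendsto (fun n => φ (x n)) atTop (𝓝 0)

/-- The weak maximizing property of the pair `(E, F)`. -/
def WMP (𝕜 E F : Type*) [RCLike 𝕜] [NormedAddCommGroup E] [NormedSpace 𝕜 E]
    [NormedAddCommGroup F] [NormedSpace 𝕜 F] : Prop :=
  ∀ T : E →L[𝕜] F, (∃ x : ℕ → E, Maximizing T x ∧ ¬ WeaklyNull 𝕜 x) → NormAttaining T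

end definitions

open Pool.Agent.V5helper27.WM

variable {𝕜 E F : Type*} [RCLike 𝕜] [NormedAddCommGroup E] [NormedSpace 𝕜 E]
  [NormedAddCommGroup F] [NormedSpace 𝕜 F]

lemma not_WMP_of {T : E →L[𝕜] F} {M : ℝ} (hM : 0 < M) (h1 : ∀ f, f ≠ 0 → ‖T f‖ < M * ‖f‖)
    {y : ℕ → E} (hy : ∀ n, ‖y n‖ = 1) (h2 : Tendsto (fun n => ‖T (y n)‖) atTop (𝓝 M))
    {φ : E →L[𝕜] 𝕜} {s : 𝕜} (hs : s ≠ 0) (hφ : Tendsto (fun n => φ (y n)) atTop (𝓝 s)) :
    ¬ WMP 𝕜 E F := by
  have hle : ‖T‖ ≤ M := by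
    refine T.opNorm_le_bound hM.le fun f => ?_
    by_cases hf : f = 0
    · subst hf; simp
    · exact (h1 f hf).le
  have hge : M ≤ ‖T‖ := by
    refine le_of_tendsto h2 (Eventually.of_forall fun n => ?_)
    have := T.le_opNorm (y n)
    rwa [hy n, mul_one] at this
  have hTM : ‖T‖ = M := le_antisymm hle hge
  intro hW
  obtain ⟨x, hx, hx2⟩ := hW T ⟨y, ⟨hy, by rw [hTM]; exact h2⟩, fun hnull =>
    hs (tendsto_nhds_unique hφ (hnull φ))⟩
  have hx0 : x ≠ 0 := by rintro rfl; rw [norm_zero] at hx; exact zero_ne_one hx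
  have := h1 x hx0
  rw [hx2, hTM, hx, mul_one] at this
  exact lt_irrefl _ this

variable {H : Type*} [NormedAddCommGroup H] [InnerProductSpace 𝕜 H] [CompleteSpace H]

/-- A bad operator on a Hilbert space `H`, together with an isometric embedding of `H` into a
Hilbert space `K`, refutes the WMP for `(K, F)`. -/
lemma not_WMP_of_bad {K : Type*} [NormedAddCommGroup K] [InnerProductSpace 𝕜 K] [CompleteSpace K]
    {S : H →L[𝕜] F} {M : ℝ} {x : ℕ → H} (hS : Bad S M x) (V : H →L[𝕜] K)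
    (hV : ∀ b, ‖V b‖ = ‖b‖) : ¬ WMP 𝕜 K F := by
  obtain ⟨e, s, hs, he⟩ := hS.weak
  have hVV : ∀ b, V.adjoint (V b) = b := by
    intro b
    have h := (ContinuousLinearMap.norm_map_iff_adjoint_comp_self V).1 hV
    have h2 := congrArg (fun L : H →L[𝕜] H => L b) h
    simpa using h2
  have hVle : ∀ f, ‖V.adjoint f‖ ≤ ‖f‖ := by
    intro f
    have h1 : ‖V.adjoint‖ ≤ 1 := by
      rw [LinearIsometryEquiv.norm_map]
      exact V.opNorm_le_bound zero_le_one fun b => by rw [hV, one_mul]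
    calc ‖V.adjoint f‖ ≤ ‖V.adjoint‖ * ‖f‖ := V.adjoint.le_opNorm f
      _ ≤ 1 * ‖f‖ := by gcongr
      _ = ‖f‖ := one_mul _
  refine not_WMP_of (T := S.comp V.adjoint) (M := M) (y := fun n => V (x n))
    (φ := (innerSL 𝕜 e).comp V.adjoint) (s := s) hS.pos ?_ ?_ ?_ hs ?_
  · intro f hf
    rw [ContinuousLinearMap.comp_apply]
    by_cases h0 : V.adjoint f = 0
    · rw [h0, map_zero, norm_zero]
      exact mul_pos hS.pos (norm_pos_iff.2 hf)
    · refine (hS.lt _ h0).trans_le ?_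
      exact mul_le_mul_of_nonneg_left (hVle f) hS.pos.le
  · intro n; rw [hV, hS.unit]
  · refine hS.maxi.congr fun n => ?_
    rw [ContinuousLinearMap.comp_apply, hVV]
  · refine tendsto_const_nhds.congr fun n => ?_
    rw [ContinuousLinearMap.comp_apply, hVV, innerSL_apply_apply, he]

variable {Ω : Type*} [MeasurableSpace Ω] {μ : Measure Ω} {p r : ℝ≥0∞}

/-- A bad operator from a Hilbert space to `L_r` and an isometric embedding of the Hilbert space
into `F` refute the WMP for `(L_p, F)`, where `1/p + 1/r = 1`. -/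
lemma not_WMP_of_bad_dual [Fact (1 ≤ r)] [Fact (1 ≤ p)] [r.HolderConjugate p]
    (h1r : 1 < r) (hr : r ≠ ∞) (h1p : 1 < p) (hp : p ≠ ∞)
    {S : H →L[𝕜] Lp 𝕜 r μ} {M : ℝ} {x : ℕ → H} (hS : Bad S M x) (V : H →L[𝕜] F)
    (hV : ∀ b, ‖V b‖ = ‖b‖) : ¬ WMP 𝕜 (Lp 𝕜 p μ) F := by
  obtain ⟨e, s, hs, he⟩ := hS.weak
  have hM := hS.pos
  -- eventually `S x_n ≠ 0`
  obtain ⟨N, hN⟩ := eventually_atTop.1 (hS.maxi.eventually (lt_mem_nhds hM))
  have hne : ∀ n, S (x (n + N)) ≠ 0 := by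
    intro n h
    have := hN (n + N) (by omega)
    rw [h, norm_zero] at this
    exact lt_irrefl _ this
  choose h hh1 hh2 using fun n => exists_norming (𝕜 := 𝕜) (μ := μ) h1r hr h1p hp _ (hne n)
  have hle : ∀ f : Lp 𝕜 p μ, f ≠ 0 → ‖adj S f‖ < M * ‖f‖ := by
    intro f hf
    have hf' : 0 < ‖f‖ := norm_pos_iff.2 hf
    by_cases h0 : adj S f = 0
    · rw [h0, norm_zero]; positivity
    · have h0' : 0 < ‖adj S f‖ := norm_pos_iff.2 h0
      have e1 : ‖adj S f‖ ^ 2 ≤ ‖S (adj S f)‖ * ‖f‖ := by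
        have e2 := adj_inner S f (adj S f)
        have e3 : ‖⟪adj S f, adj S f⟫_𝕜‖ = ‖adj S f‖ ^ 2 := by
          rw [inner_self_eq_norm_sq_to_K, norm_pow, RCLike.norm_ofReal, abs_norm]
        rw [← e3, e2]
        refine (norm_pair_le _ _).trans ?_
        rw [lpstar_norm]
      have e4 : ‖adj S f‖ ^ 2 < (M * ‖adj S f‖) * ‖f‖ :=
        e1.trans_lt (mul_lt_mul_of_pos_right (hS.lt _ h0) hf')
      by_contra hcon
      rw [not_lt] at hcon
      nlinarith
  have hlim : Tendsto (fun n => ‖S (x (n + N))‖) atTop (𝓝 M) :=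
    hS.maxi.comp (tendsto_add_atTop_nat N)
  have hstar1 : ∀ n, ‖star (h n)‖ = 1 := fun n => by rw [lpstar_norm, hh1]
  have hinner : ∀ n, ⟪adj S (star (h n)), x (n + N)⟫_𝕜 = ((‖S (x (n + N))‖ : ℝ) : 𝕜) := by
    intro n
    rw [adj_inner, star_star, hh2]
  have hge : ∀ n, ‖S (x (n + N))‖ ≤ ‖adj S (star (h n))‖ := by
    intro n
    have e1 := norm_inner_le_norm (𝕜 := 𝕜) (adj S (star (h n))) (x (n + N))
    rw [hinner, RCLike.norm_ofReal, abs_norm, hS.unit, mul_one] at e1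
    exact e1
  have hub : ∀ n, ‖adj S (star (h n))‖ ≤ M := by
    intro n
    have hne0 : star (h n) ≠ 0 := by
      intro h0
      have := hstar1 n
      rw [h0, norm_zero] at this
      exact zero_ne_one this
    have := (hle _ hne0).le
    rwa [hstar1, mul_one] at this
  have hdiff : Tendsto (fun n => adj S (star (h n)) - ((M : ℝ) : 𝕜) • x (n + N)) atTop (𝓝 0) := by
    rw [tendsto_zero_iff_norm_tendsto_zero]
    have hb : ∀ n, ‖adj S (star (h n)) - ((M : ℝ) : 𝕜) • x (n + N)‖ ≤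
        √(2 * M ^ 2 - 2 * M * ‖S (x (n + N))‖) := by
      intro n
      apply Real.le_sqrt_of_sq_le
      rw [norm_sub_sq (𝕜 := 𝕜), inner_smul_right, hinner, ← RCLike.ofReal_mul, RCLike.ofReal_re,
        norm_smul, RCLike.norm_ofReal, hS.unit, mul_one, sq_abs]
      have := hub n
      have h0 := norm_nonneg (adj S (star (h n)))
      nlinarith
    have hlim2 : Tendsto (fun n => √(2 * M ^ 2 - 2 * M * ‖S (x (n + N))‖)) atTop (𝓝 0) := by
      have e1 : Tendsto (fun n => 2 * M ^ 2 - 2 * M * ‖S (x (n + N))‖) atTop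
          (𝓝 (2 * M ^ 2 - 2 * M * M)) := (hlim.const_mul (2 * M)).const_sub (2 * M ^ 2)
      have e2 := (Real.continuous_sqrt.tendsto _).comp e1
      have e3 : √(2 * M ^ 2 - 2 * M * M) = 0 := by
        have : 2 * M ^ 2 - 2 * M * M = 0 := by ring
        rw [this, Real.sqrt_zero]
      rw [e3] at e2
      exact e2
    exact squeeze_zero (fun n => norm_nonneg _) hb hlim2
  refine not_WMP_of (T := V.comp (adj (p := p) S)) (M := M) (y := fun n => star (h n))
    (φ := (innerSL 𝕜 e).comp (adj S)) (s := ((M : ℝ) : 𝕜) * s) hM ?_ hstar1 ?_ ?_ ?_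
  · intro f hf
    rw [ContinuousLinearMap.comp_apply, hV]
    exact hle f hf
  · refine tendsto_of_tendsto_of_tendsto_of_le_of_le hlim tendsto_const_nhds (fun n => ?_)
      (fun n => ?_)
    · simp only [ContinuousLinearMap.comp_apply, hV]; exact hge n
    · simp only [ContinuousLinearMap.comp_apply, hV]; exact hub n
  · refine mul_ne_zero ?_ hs
    rw [Ne, RCLike.ofReal_eq_zero]
    exact hM.ne'
  · have e1 : Tendsto (fun n => ⟪e, adj S (star (h n)) - ((M : ℝ) : 𝕜) • x (n + N)⟫_𝕜 +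
        ((M : ℝ) : 𝕜) * s) atTop (𝓝 (⟪e, 0⟫_𝕜 + ((M : ℝ) : 𝕜) * s)) :=
      ((continuous_const.inner continuous_id).tendsto (0 : H) |>.comp hdiff).add_const _
    rw [inner_zero_right, zero_add] at e1
    refine e1.congr fun n => ?_
    rw [ContinuousLinearMap.comp_apply, innerSL_apply_apply, inner_sub_right, inner_smul_right, he]
    ring

/-- For `1 < p ≤ 2 ≤ q < ∞` with `(p,q) ≠ (2,2)` the pair `(L_p[0,1], L_q[0,1])` fails the weak
maximizing property. -/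
theorem result (𝕜 : Type*) [RCLike 𝕜] (p q : ℝ≥0∞) [Fact (1 ≤ p)] [Fact (1 ≤ q)]
    (h1p : 1 < p) (hp2 : p ≤ 2) (hq2 : 2 ≤ q) (hq : q ≠ ∞) (hpq : (p, q) ≠ (2, 2)) :
    ¬ WMP 𝕜 (Lp 𝕜 p (volume : Measure unitInterval))
      (Lp 𝕜 q (volume : Measure unitInterval)) := by
  have hp : p ≠ ∞ := ne_top_of_le_ne_top (by norm_num) hp2
  rcases hp2.lt_or_eq with hlt | heq
  · -- `p < 2`
    obtain ⟨V, hV⟩ := exists_isometry (𝕜 := 𝕜) (r := q) hq
    set r : ℝ≥0∞ := p.conjExponent with hr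
    have hconj : r.HolderConjugate p := (inferInstance : p.HolderConjugate p.conjExponent).symm
    have hp1 : p - 1 ≠ 0 := (tsub_pos_of_lt h1p).ne'
    have hrtop : r ≠ ∞ := by
      rw [hr, ENNReal.conjExponent]
      exact ENNReal.add_ne_top.2 ⟨ENNReal.one_ne_top, ENNReal.inv_ne_top.2 hp1⟩
    have h2r : 2 < r := by
      rw [hr, ENNReal.conjExponent]
      have h1 : p - 1 < 1 := by
        have : p < 1 + 1 := by rw [one_add_one_eq_two]; exact hlt
        exact ENNReal.sub_lt_of_lt_add h1p.le this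
      have h2 : 1 < (p - 1)⁻¹ := ENNReal.one_lt_inv.2 h1
      have h3 : (2 : ℝ≥0∞) = 1 + 1 := one_add_one_eq_two.symm
      rw [h3]
      exact (ENNReal.add_lt_add_iff_left ENNReal.one_ne_top).2 h2
    have h1r : 1 < r := lt_trans (by norm_num) h2r
    haveI : Fact (1 ≤ r) := ⟨h1r.le⟩
    obtain ⟨S, M, x, hS⟩ := exists_bad (𝕜 := 𝕜) h2r hrtop
    exact not_WMP_of_bad_dual h1r hrtop h1p hp hS V hV
  · -- `p = 2`
    subst heq
    have h2q : 2 < q := lt_of_le_of_ne hq2 (fun h => hpq (by rw [h]))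
    obtain ⟨S, M, x, hS⟩ := exists_bad (𝕜 := 𝕜) h2q hq
    obtain ⟨V, hV⟩ := exists_isometry (𝕜 := 𝕜) (r := 2) (by norm_num)
    exact not_WMP_of_bad hS V hV

end Pool.Agent.Results.MP_30e1ee_an.WeakMaximizingFails
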